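import Pool.Agent.H3.TensorWF

set_option autoImplicit false

namespace Pool.Agent.Results.MP_176834_co.NotCondB

open Pool.Agent.H3.TensorDefs Pool.Agent.H3.TensorWF

/-- Q1, negative for every field: condition (b) fails for tensor restriction. -/
theorem result (F : Type*) [Field F] : ¬ CondB F := by
  rintro ⟨c, b, s, t, -, hst, hc, hf⟩
  obtain ⟨f, ⟨hm, -⟩, hq, -⟩ := hf s le_rfl hst.le
  have h2 : ∀ n : ℕ, (2 : ℚ) ≤ 2 + 1 / (n + 1) := fun n => by
    have : (0 : ℚ) < 1 / (n + 1) := by positivity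
    linarith
  have hlt : ∀ n : ℕ, (2 : ℚ) + 1 / ((n + 1 : ℕ) + 1) < 2 + 1 / (n + 1) := fun n => by
    have : (1 : ℚ) / ((n + 1 : ℕ) + 1) < 1 / (n + 1) := by
      apply one_div_lt_one_div_of_lt
      · positivity
      · push_cast; linarith
    linarith
  refine no_chain (fun n : ℕ => c (2 + 1 / (n + 1))) (fun n => hc _ _ (h2 _) (hlt n).le) ?_
  intro n hr
  have h3 : (f (c (2 + 1 / (n + 1))) : ℝ) ≤ f (c (2 + 1 / ((n + 1 : ℕ) + 1))) := by
    exact_mod_cast hm _ _ hr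
  rw [hq _ (h2 n), hq _ (h2 (n + 1))] at h3
  exact absurd (Rat.cast_le.1 h3) (not_le.2 (hlt n))

end Pool.Agent.Results.MP_176834_co.NotCondB
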