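import Pool.Agent.H3.TensorWF

set_option autoImplicit false

namespace Pool.Agent.Results.MP_176834_co.NotUniversal

open Pool.Agent.H3.TensorDefs Pool.Agent.H3.TensorWF

/-- Q2, negative for every field: the restriction preorder is not countably universal. -/
theorem result (F : Type*) [Field F] : ¬ CountablyUniversal F := by
  intro h
  obtain ⟨φ, hφ⟩ := h ℤ
  refine no_chain (fun n : ℕ => φ (-n)) (fun n => (hφ _ _).1 (by push_cast; omega)) ?_
  intro n hr
  have := (hφ _ _).2 hr
  push_cast at this
  omega

end Pool.Agent.Results.MP_176834_co.NotUniversal
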